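import Mathlib

/-!
# Selection principles and games for the families `𝒟_Ω`

Definitions only.
-/

namespace Pool.Agent.SelGames

universe u

variable {X : Type u}

/-- The family `𝒟_Ω` of a topological space `X`: all families `𝒰` of open subsets of `X`
whose union is dense, such that `X ⊄ closure U` for every `U ∈ 𝒰`, and such that for every
finite family `𝓕` of nonempty open sets some `U ∈ 𝒰` meets every member of `𝓕`. -/
def DOmega (X : Type u) [TopologicalSpace X] : Set (Set (Set X)) :=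
  {𝒰 | (∀ U ∈ 𝒰, IsOpen U) ∧ Dense (⋃₀ 𝒰) ∧
    (∀ U ∈ 𝒰, ¬ ((Set.univ : Set X) ⊆ closure U)) ∧
    ∀ 𝓕 : Set (Set X), 𝓕.Finite → (∀ F ∈ 𝓕, IsOpen F ∧ F.Nonempty) →
      ∃ U ∈ 𝒰, ∀ F ∈ 𝓕, (U ∩ F).Nonempty}

/-- The selection principle `S_1(A,B)`: for every sequence `(𝒰 n)` of members of `A` there are
`U n ∈ 𝒰 n` with `{U n : n ∈ ℕ} ∈ B`. -/
def S1 (A B : Set (Set (Set X))) : Prop :=
  ∀ 𝒰 : ℕ → Set (Set X), (∀ n, 𝒰 n ∈ A) →
    ∃ U : ℕ → Set X, (∀ n, U n ∈ 𝒰 n) ∧ Set.range U ∈ B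

/-- The selection principle `S_fin(A,B)`: for every sequence `(𝒰 n)` of members of `A` there are
finite `𝓕 n ⊆ 𝒰 n` with `⋃ n, 𝓕 n ∈ B`. -/
def Sfin (A B : Set (Set (Set X))) : Prop :=
  ∀ 𝒰 : ℕ → Set (Set X), (∀ n, 𝒰 n ∈ A) →
    ∃ 𝓕 : ℕ → Set (Set X), (∀ n, (𝓕 n).Finite ∧ 𝓕 n ⊆ 𝒰 n) ∧ (⋃ n, 𝓕 n) ∈ B

/-- ONE has a winning strategy in the game `G_1(A,B)`.

A strategy `σ` of ONE assigns to the finite list `h` of the answers given so far by TWO the next
move `σ h` of ONE. It has to be legal: after every finite list `h` of legal answers of TWO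
(the `i`-th answer is an element of ONE's `i`-th move `σ (h.take i)`), the move `σ h` lies in
`A`. It is winning if TWO loses each play `(U n)` against it, i.e. `{U n : n ∈ ℕ} ∉ B`
whenever `U n ∈ σ [U 0, …, U (n-1)]` for all `n`. -/
def OneHasWinningStrategyG1 (A B : Set (Set (Set X))) : Prop :=
  ∃ σ : List (Set X) → Set (Set X),
    (∀ h : List (Set X), (∀ (i : ℕ) (hi : i < h.length), h[i] ∈ σ (h.take i)) → σ h ∈ A) ∧
    ∀ U : ℕ → Set X, (∀ n, U n ∈ σ ((List.range n).map U)) → Set.range U ∉ B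

/-- ONE has a winning strategy in the game `G_fin(A,B)`: as for `G_1`, except that the answers
of TWO are finite subsets `𝓕 n` of ONE's moves and TWO wins the play iff `⋃ n, 𝓕 n ∈ B`. -/
def OneHasWinningStrategyGfin (A B : Set (Set (Set X))) : Prop :=
  ∃ σ : List (Set (Set X)) → Set (Set X),
    (∀ h : List (Set (Set X)),
      (∀ (i : ℕ) (hi : i < h.length), (h[i]).Finite ∧ h[i] ⊆ σ (h.take i)) → σ h ∈ A) ∧
    ∀ 𝓕 : ℕ → Set (Set X),
      (∀ n, (𝓕 n).Finite ∧ 𝓕 n ⊆ σ ((List.range n).map 𝓕)) → (⋃ n, 𝓕 n) ∉ B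

end Pool.Agent.SelGames
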