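import Pool.Agent.SelGames.Hurewicz

namespace Pool.Agent.SelGames

universe u

lemma legal_append {α : Type*} {β : Type*} (P : α → β → Prop) (σ : List α → β) (h : List α)
    (x : α) (hh : ∀ (i : ℕ) (hi : i < h.length), P h[i] (σ (h.take i))) (hx : P x (σ h)) :
    ∀ (i : ℕ) (hi : i < (h ++ [x]).length), P (h ++ [x])[i] (σ ((h ++ [x]).take i)) := by
  intro i hi
  by_cases hlt : i < h.length
  · rw [List.getElem_append_left hlt, List.take_append_of_le_length hlt.le]
    exact hh i hlt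
  · have hi' : i = h.length := by
      rw [List.length_append, List.length_singleton] at hi
      omega
    subst hi'
    simpa using hx

variable {X : Type u} [TopologicalSpace X]

lemma nonempty_of_mem {𝒰 : Set (Set X)} (h : 𝒰 ∈ DOmega X) : 𝒰.Nonempty := by
  obtain ⟨U, hU, _⟩ := h.2.2.2 ∅ Set.finite_empty (by simp)
  exact ⟨U, hU⟩

lemma sfin_of_s1 {A B : Set (Set (Set X))} (h : S1 A B) : Sfin A B := by
  intro 𝒰 h𝒰
  obtain ⟨U, hU, hB⟩ := h 𝒰 h𝒰
  refine ⟨fun n => {U n}, fun n => ⟨Set.finite_singleton _, by simpa using hU n⟩, ?_⟩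
  have : (⋃ n, ({U n} : Set (Set X))) = Set.range U := by
    ext V
    simp [eq_comm]
  rwa [this]

lemma exists_enum (hS : Sfin (DOmega X) (DOmega X)) (𝒰 : Set (Set X)) (h : 𝒰 ∈ DOmega X) :
    ∃ e : ℕ → Set X, (∀ n, e n ∈ 𝒰) ∧ Set.range e ∈ DOmega X := by
  obtain ⟨𝓕, h𝓕, hD⟩ := hS (fun _ => 𝒰) (fun _ => h)
  have hc : (⋃ n, 𝓕 n).Countable := Set.countable_iUnion fun n => (h𝓕 n).1.countable
  obtain ⟨e, he⟩ := hc.exists_eq_range (nonempty_of_mem hD)
  refine ⟨e, fun n => ?_, he ▸ hD⟩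
  have : e n ∈ ⋃ n, 𝓕 n := he ▸ Set.mem_range_self n
  obtain ⟨k, hk⟩ := Set.mem_iUnion.1 this
  exact (h𝓕 k).2 hk

/-! ### The game `G_fin` -/

/-- the history reached when TWO always plays initial segments of the enumerations -/
def Hf (σ : List (Set (Set X)) → Set (Set X)) (e : Set (Set X) → ℕ → Set X) :
    List ℕ → List (Set (Set X))
  | [] => []
  | (m :: τ) => Hf σ e τ ++ [{U | ∃ i ≤ m, U = e (σ (Hf σ e τ)) i}]

theorem gfin_of_sfin (hS : Sfin (DOmega X) (DOmega X)) :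
    ¬ OneHasWinningStrategyGfin (DOmega X) (DOmega X) := by
  rintro ⟨σ, hleg, hwin⟩
  choose! e he heD using exists_enum hS
  have hlegal : ∀ τ, (∀ (i : ℕ) (hi : i < (Hf σ e τ).length),
      ((Hf σ e τ)[i]).Finite ∧ (Hf σ e τ)[i] ⊆ σ ((Hf σ e τ).take i)) := by
    intro τ
    induction τ with
    | nil => intro i hi; simp [Hf] at hi
    | cons m τ ih =>
      have hmem := hleg _ ih
      refine legal_append (fun (x : Set (Set X)) (y : Set (Set X)) => x.Finite ∧ x ⊆ y) σ
        (Hf σ e τ) _ ih ⟨?_, ?_⟩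
      · refine ((Set.finite_Iic m).image (e (σ (Hf σ e τ)))).subset ?_
        rintro U ⟨i, hi, rfl⟩
        exact ⟨i, hi, rfl⟩
      · rintro U ⟨i, hi, rfl⟩
        exact he _ hmem i
  have hmem : ∀ τ, σ (Hf σ e τ) ∈ DOmega X := fun τ => hleg _ (hlegal τ)
  let R : List ℕ → ℕ → Set X → Prop := fun τ m U => ∃ i ≤ m, U ⊆ e (σ (Hf σ e τ)) i
  have hR : Capt R := by
    refine ⟨?_, ?_, ?_, ?_⟩
    · rintro τ m U V ⟨i, hi, h⟩ hV
      exact ⟨i, hi, hV.trans h⟩
    · rintro τ m m' U ⟨i, hi, h⟩ hm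
      exact ⟨i, hi.trans hm, h⟩
    · rintro τ m U ⟨i, hi, h⟩ hd
      exact (hmem τ).2.2.1 _ (he _ (hmem τ) i) (hd.trans (closure_mono h))
    · intro τ ι _ p hp
      obtain ⟨q, hq, hqp, U, ⟨i, rfl⟩, hqU⟩ := shrink_of_mem (heD _ (hmem τ)) hp
      exact ⟨q, hq, hqp, i, i, le_rfl, hqU⟩
  obtain ⟨m, hm, hmain⟩ := hurewicz hR hS
  let G : ℕ → Set (Set X) := fun n => {U | ∃ i ≤ m n, U = e (σ (Hf σ e (revl m n))) i}
  have hist : ∀ n, (List.range n).map G = Hf σ e (revl m n) := by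
    intro n
    induction n with
    | zero => simp [revl, Hf]
    | succ n ih =>
      rw [List.range_succ, List.map_append, ih, revl_succ]
      rfl
  refine hwin G (fun n => ?_) ?_
  · rw [hist n]
    refine ⟨?_, ?_⟩
    · refine ((Set.finite_Iic (m n)).image (e (σ (Hf σ e (revl m n))))).subset ?_
      rintro U ⟨i, hi, rfl⟩
      exact ⟨i, hi, rfl⟩
    · rintro U ⟨i, hi, rfl⟩
      exact he _ (hmem _) i
  · refine mem_DOmega_of ?_ ?_ ?_
    · intro U hU
      obtain ⟨n, i, hi, rfl⟩ := Set.mem_iUnion.1 hU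
      exact (hmem (revl m n)).1 _ (he _ (hmem _) i)
    · intro U hU
      obtain ⟨n, i, hi, rfl⟩ := Set.mem_iUnion.1 hU
      exact (hmem (revl m n)).2.2.1 _ (he _ (hmem _) i)
    · intro ι _ p hp
      obtain ⟨n, -, q, hq, hqp, i, hi, hsub⟩ := hmain 0 ι p hp
      refine ⟨_, Set.mem_iUnion.2 ⟨n, i, hi, rfl⟩, fun j => ?_⟩
      obtain ⟨x, hx⟩ := (hq j).2
      exact ⟨x, hsub (Set.mem_iUnion.2 ⟨j, hx⟩), hqp j hx⟩

theorem sfin_of_gfin {A B : Set (Set (Set X))} (h : ¬ OneHasWinningStrategyGfin A B) :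
    Sfin A B := by
  intro 𝒰 h𝒰
  by_contra hcon
  push Not at hcon
  refine h ⟨fun h => 𝒰 h.length, fun h _ => h𝒰 _, fun 𝓕 h𝓕 => ?_⟩
  exact hcon 𝓕 (fun n => by simpa using h𝓕 n)

/-! ### The game `G_1` -/

/-- the history reached when TWO plays according to the list of indices (latest first) -/
def Hs (σ : List (Set X) → Set (Set X)) (e : Set (Set X) → ℕ → Set X) :
    List ℕ → List (Set X)
  | [] => []
  | (m :: τ) => Hs σ e τ ++ [e (σ (Hs σ e τ)) m]

lemma finite_forall₂ (τ : List ℕ) : {s : List ℕ | List.Forall₂ (· ≤ ·) s τ}.Finite := by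
  induction τ with
  | nil =>
    refine (Set.finite_singleton []).subset ?_
    intro s hs
    simpa using hs
  | cons m τ ih =>
    refine (((Set.finite_Iic m).prod ih).image (fun x : ℕ × List ℕ => x.1 :: x.2)).subset ?_
    intro s hs
    match s, hs with
    | i :: s, hs =>
      rw [Set.mem_setOf_eq, List.forall₂_cons] at hs
      exact ⟨(i, s), ⟨hs.1, hs.2⟩, rfl⟩

theorem g1_of_s1 (hS1 : S1 (DOmega X) (DOmega X)) :
    ¬ OneHasWinningStrategyG1 (DOmega X) (DOmega X) := by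
  rintro ⟨σ, hleg, hwin⟩
  have hS : Sfin (DOmega X) (DOmega X) := sfin_of_s1 hS1
  choose! e he heD using exists_enum hS
  have hlegal : ∀ τ, (∀ (i : ℕ) (hi : i < (Hs σ e τ).length),
      (Hs σ e τ)[i] ∈ σ ((Hs σ e τ).take i)) := by
    intro τ
    induction τ with
    | nil => intro i hi; simp [Hs] at hi
    | cons m τ ih =>
      have hmem := hleg _ ih
      exact legal_append (fun (x : Set X) (y : Set (Set X)) => x ∈ y) σ
        (Hs σ e τ) _ ih (he _ hmem m)
  have hmem : ∀ τ, σ (Hs σ e τ) ∈ DOmega X := fun τ => hleg _ (hlegal τ)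
  let R : List ℕ → ℕ → Set X → Prop := fun τ m U =>
    ∀ s, List.Forall₂ (· ≤ ·) s τ → ∃ i ≤ m, U ⊆ e (σ (Hs σ e s)) i
  have hR : Capt R := by
    refine ⟨?_, ?_, ?_, ?_⟩
    · intro τ m U V h hV s hs
      obtain ⟨i, hi, h⟩ := h s hs
      exact ⟨i, hi, hV.trans h⟩
    · intro τ m m' U h hm s hs
      obtain ⟨i, hi, h⟩ := h s hs
      exact ⟨i, hi.trans hm, h⟩
    · intro τ m U h hd
      obtain ⟨i, hi, h⟩ := h τ (List.forall₂_refl τ)
      exact (hmem τ).2.2.1 _ (he _ (hmem τ) i) (hd.trans (closure_mono h))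
    · intro τ ι _ p hp
      have key : ∀ J : Set (List ℕ), J.Finite → ∃ q, Tup q ∧ Ref q p ∧ ∃ m, ∀ s ∈ J,
          ∃ i ≤ m, (⋃ j, q j) ⊆ e (σ (Hs σ e s)) i := by
        intro J hJ
        induction J, hJ using Set.Finite.induction_on with
        | empty => exact ⟨p, hp, fun _ => subset_rfl, 0, by simp⟩
        | @insert a s _ _ ih =>
          obtain ⟨q, hq, hqp, M, hM⟩ := ih
          obtain ⟨q', hq', hqq, U, ⟨i, rfl⟩, hqU⟩ := shrink_of_mem (heD _ (hmem a)) hq
          refine ⟨q', hq', hqq.trans hqp, max M i, ?_⟩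
          rintro t (rfl | ht)
          · exact ⟨i, le_max_right _ _, hqU⟩
          · obtain ⟨j, hj, hs⟩ := hM t ht
            exact ⟨j, hj.trans (le_max_left _ _), (iUnion_mono_ref hqq).trans hs⟩
      obtain ⟨q, hq, hqp, m, hm⟩ := key _ (finite_forall₂ τ)
      exact ⟨q, hq, hqp, m, fun s hs => hm s hs⟩
  obtain ⟨m, hm, hmain⟩ := hurewicz hR hS
  -- open sets captured at many stages
  let VV : ℕ → Set (Set X) := fun k => {U | IsOpen U ∧ ∃ A : Finset ℕ, k < A.card ∧
    ∀ n ∈ A, R (revl m n) (m n) U}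
  have hiter : ∀ k (ι : Type u) [Finite ι] (p : ι → Set X), Tup p →
      ∃ q, Tup q ∧ Ref q p ∧ ∃ A : Finset ℕ, A.card = k ∧
        ∀ n ∈ A, R (revl m n) (m n) (⋃ i, q i) := by
    intro k
    induction k with
    | zero => intro ι _ p hp; exact ⟨p, hp, fun _ => subset_rfl, ∅, rfl, by simp⟩
    | succ k ih =>
      intro ι _ p hp
      obtain ⟨q, hq, hqp, A, hA, hAR⟩ := ih ι p hp
      obtain ⟨n, hn, q', hq', hqq, hRn⟩ := hmain (A.sup id + 1) ι q hq
      have hnA : n ∉ A := by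
        intro h
        have : n ≤ A.sup id := Finset.le_sup (f := id) h
        omega
      refine ⟨q', hq', hqq.trans hqp, insert n A, by rw [Finset.card_insert_of_notMem hnA, hA], ?_⟩
      intro j hj
      rcases Finset.mem_insert.1 hj with rfl | hj
      · exact hRn
      · exact hR.monoU (hAR j hj) (iUnion_mono_ref hqq)
  have hVV : ∀ k, VV k ∈ DOmega X := by
    intro k
    refine mem_DOmega_of (fun U hU => hU.1) ?_ ?_
    · rintro U ⟨_, A, hA, hAR⟩
      obtain ⟨n, hn⟩ := Finset.card_pos.1 (lt_of_le_of_lt (Nat.zero_le _) hA)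
      exact hR.ndense (hAR n hn)
    · intro ι _ p hp
      obtain ⟨q, hq, hqp, A, hA, hAR⟩ := hiter (k + 1) ι p hp
      refine ⟨⋃ i, q i, ⟨isOpen_iUnion fun i => (hq i).1, A, by omega, hAR⟩, fun i => ?_⟩
      obtain ⟨x, hx⟩ := (hq i).2
      exact ⟨x, Set.mem_iUnion.2 ⟨i, hx⟩, hqp i hx⟩
  obtain ⟨V, hV, hVD⟩ := hS1 VV hVV
  choose A hA hAR using fun k => (hV k).2
  -- distinct indices
  have hpick : ∀ (k : ℕ) (F : Finset ℕ), F.card ≤ k → ∃ n ∈ A k, n ∉ F := by
    intro k F hF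
    by_contra hcon
    push Not at hcon
    have : (A k).card ≤ F.card := Finset.card_le_card hcon
    have := hA k
    omega
  choose! pick hpickA hpickF using hpick
  let F : ℕ → Finset ℕ := fun k => Nat.rec ∅ (fun k r => insert (pick k r) r) k
  have hF0 : F 0 = ∅ := rfl
  have hFs : ∀ k, F (k + 1) = insert (pick k (F k)) (F k) := fun k => rfl
  have hFcard : ∀ k, (F k).card ≤ k := by
    intro k
    induction k with
    | zero => simp [hF0]
    | succ k ih =>
      rw [hFs]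
      exact (Finset.card_insert_le _ _).trans (Nat.succ_le_succ ih)
  let idx : ℕ → ℕ := fun k => pick k (F k)
  have hidxA : ∀ k, idx k ∈ A k := fun k => hpickA k _ (hFcard k)
  have hFmono : Monotone F := monotone_nat_of_le_succ fun k => by
    rw [hFs]; exact Finset.subset_insert _ _
  have hidxF : ∀ k, idx k ∈ F (k + 1) := fun k => by
    rw [hFs]; exact Finset.mem_insert_self _ _
  have hidxn : ∀ k, idx k ∉ F k := fun k => hpickF k _ (hFcard k)
  have hinj : Function.Injective idx := by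
    have hlt : ∀ a b, a < b → idx a ≠ idx b := by
      intro a b hab heq
      exact hidxn b (heq ▸ hFmono (Nat.succ_le_of_lt hab) (hidxF a))
    intro a b hab
    rcases lt_trichotomy a b with h | h | h
    · exact absurd hab (hlt a b h)
    · exact h
    · exact absurd hab.symm (hlt b a h)
  -- the choice functions
  have hch : ∀ n, ∃ c : List ℕ → ℕ, (∀ s, c s ≤ m n) ∧ ∀ k, idx k = n →
      ∀ s, List.Forall₂ (· ≤ ·) s (revl m n) → V k ⊆ e (σ (Hs σ e s)) (c s) := by
    intro n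
    by_cases hn : ∃ k, idx k = n
    · obtain ⟨k, hk⟩ := hn
      have hRk := hAR k (idx k) (hidxA k)
      rw [hk] at hRk
      have hc : ∀ s, ∃ i ≤ m n, List.Forall₂ (· ≤ ·) s (revl m n) →
          V k ⊆ e (σ (Hs σ e s)) i := by
        intro s
        by_cases hs : List.Forall₂ (· ≤ ·) s (revl m n)
        · obtain ⟨i, hi, h⟩ := hRk s hs
          exact ⟨i, hi, fun _ => h⟩
        · exact ⟨0, Nat.zero_le _, fun h => absurd h hs⟩
      choose c hc1 hc2 using hc
      refine ⟨c, hc1, fun k' hk' => ?_⟩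
      have : k' = k := hinj (hk'.trans hk.symm)
      subst this
      exact hc2
    · exact ⟨fun _ => 0, fun _ => Nat.zero_le _, fun k hk => absurd ⟨k, hk⟩ hn⟩
  choose c hc1 hc2 using hch
  -- the play of TWO
  let pos : ℕ → List ℕ := fun n => Nat.rec [] (fun n s => c n s :: s) n
  have hpos0 : pos 0 = [] := rfl
  have hposs : ∀ n, pos (n + 1) = c n (pos n) :: pos n := fun n => rfl
  have hpos : ∀ n, List.Forall₂ (· ≤ ·) (pos n) (revl m n) := by
    intro n
    induction n with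
    | zero => simp [hpos0, revl]
    | succ n ih =>
      rw [hposs, revl_succ]
      exact List.Forall₂.cons (hc1 n _) ih
  let G : ℕ → Set X := fun n => e (σ (Hs σ e (pos n))) (c n (pos n))
  have hist : ∀ n, (List.range n).map G = Hs σ e (pos n) := by
    intro n
    induction n with
    | zero => simp [hpos0, Hs]
    | succ n ih =>
      rw [List.range_succ, List.map_append, ih, hposs]
      rfl
  refine hwin G (fun n => ?_) ?_
  · rw [hist n]
    exact he _ (hmem _) _
  · refine mem_DOmega_of ?_ ?_ ?_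
    · rintro U ⟨n, rfl⟩
      exact (hmem (pos n)).1 _ (he _ (hmem _) _)
    · rintro U ⟨n, rfl⟩
      exact (hmem (pos n)).2.2.1 _ (he _ (hmem _) _)
    · intro ι _ p hp
      obtain ⟨U, ⟨k, rfl⟩, hk⟩ := meets_of_mem hVD hp
      refine ⟨G (idx k), ⟨idx k, rfl⟩, fun j => ?_⟩
      obtain ⟨x, hx1, hx2⟩ := hk j
      exact ⟨x, hc2 (idx k) k rfl (pos (idx k)) (hpos _) hx1, hx2⟩

theorem s1_of_g1 {A B : Set (Set (Set X))} (h : ¬ OneHasWinningStrategyG1 A B) :
    S1 A B := by
  intro 𝒰 h𝒰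
  by_contra hcon
  push Not at hcon
  refine h ⟨fun h => 𝒰 h.length, fun h _ => h𝒰 _, fun U hU => ?_⟩
  exact hcon U (fun n => by simpa using hU n)

end Pool.Agent.SelGames
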