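import Pool.Agent.SelGames.Defs

namespace Pool.Agent.SelGames

universe u

variable {X : Type u} [TopologicalSpace X]

/-- A tuple of nonempty open sets. -/
def Tup {ι : Type u} (p : ι → Set X) : Prop := ∀ i, IsOpen (p i) ∧ (p i).Nonempty

/-- `q` refines `p` coordinatewise. -/
def Ref {ι : Type u} (q p : ι → Set X) : Prop := ∀ i, q i ⊆ p i

lemma Ref.trans {ι : Type u} {r q p : ι → Set X} (h : Ref r q) (h' : Ref q p) : Ref r p :=
  fun i => (h i).trans (h' i)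

lemma mem_DOmega_of {𝒰 : Set (Set X)} (h1 : ∀ U ∈ 𝒰, IsOpen U)
    (h2 : ∀ U ∈ 𝒰, ¬ ((Set.univ : Set X) ⊆ closure U))
    (h3 : ∀ (ι : Type u) [Finite ι] (p : ι → Set X), Tup p →
      ∃ U ∈ 𝒰, ∀ i, (U ∩ p i).Nonempty) : 𝒰 ∈ DOmega X := by
  refine ⟨h1, ?_, h2, ?_⟩
  · rw [dense_iff_inter_open]
    intro F hF hne
    obtain ⟨U, hU, hm⟩ := h3 PUnit.{u+1} (fun _ => F) (fun _ => ⟨hF, hne⟩)
    obtain ⟨x, hx1, hx2⟩ := hm PUnit.unit
    exact ⟨x, hx2, Set.mem_sUnion.2 ⟨U, hU, hx1⟩⟩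
  · intro 𝓕 hfin hF
    have : Finite 𝓕 := hfin
    obtain ⟨U, hU, hm⟩ := h3 𝓕 (fun F => (F : Set X)) (fun F => hF F F.2)
    exact ⟨U, hU, fun F hF' => hm ⟨F, hF'⟩⟩

lemma meets_of_mem {𝒰 : Set (Set X)} (h : 𝒰 ∈ DOmega X) {ι : Type u} [Finite ι]
    {p : ι → Set X} (hp : Tup p) : ∃ U ∈ 𝒰, ∀ i, (U ∩ p i).Nonempty := by
  obtain ⟨U, hU, hm⟩ := h.2.2.2 (Set.range p) (Set.finite_range p) (by
    rintro F ⟨i, rfl⟩
    exact hp i)
  exact ⟨U, hU, fun i => hm (p i) ⟨i, rfl⟩⟩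

lemma tup_inter {ι : Type u} {p : ι → Set X} (hp : Tup p) {U : Set X} (hU : IsOpen U)
    (hm : ∀ i, (U ∩ p i).Nonempty) : Tup (fun i => U ∩ p i) :=
  fun i => ⟨hU.inter (hp i).1, hm i⟩

lemma ref_inter {ι : Type u} {p : ι → Set X} {U : Set X} : Ref (fun i => U ∩ p i) p :=
  fun _ => Set.inter_subset_right

lemma iUnion_inter_sub {ι : Type u} {p : ι → Set X} {U : Set X} :
    (⋃ i, U ∩ p i) ⊆ U := Set.iUnion_subset fun _ => Set.inter_subset_left

lemma shrink_of_mem {𝒰 : Set (Set X)} (h : 𝒰 ∈ DOmega X) {ι : Type u} [Finite ι]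
    {p : ι → Set X} (hp : Tup p) : ∃ q, Tup q ∧ Ref q p ∧ ∃ U ∈ 𝒰, (⋃ i, q i) ⊆ U := by
  obtain ⟨U, hU, hm⟩ := meets_of_mem h hp
  exact ⟨_, tup_inter hp (h.1 U hU) hm, ref_inter, U, hU, iUnion_inter_sub⟩

lemma iUnion_mono_ref {ι : Type u} {q p : ι → Set X} (h : Ref q p) :
    (⋃ i, q i) ⊆ ⋃ i, p i := Set.iUnion_mono h

/-- The abstract data of being captured at a position by a move. -/
structure Capt (R : List ℕ → ℕ → Set X → Prop) : Prop where
  monoU : ∀ {τ m U V}, R τ m U → V ⊆ U → R τ m V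
  monom : ∀ {τ m m' U}, R τ m U → m ≤ m' → R τ m' U
  ndense : ∀ {τ m U}, R τ m U → ¬ ((Set.univ : Set X) ⊆ closure U)
  shrink : ∀ (τ : List ℕ) (ι : Type u) [Finite ι] (p : ι → Set X), Tup p →
    ∃ q, Tup q ∧ Ref q p ∧ ∃ m, R τ m (⋃ i, q i)

/-- being captured (with index at least `N`) along a finite play (latest move first). -/
def Cap (R : List ℕ → ℕ → Set X → Prop) (N : ℕ) : List ℕ → Set X → Prop
  | [], _ => False
  | (m :: τ), U => (N ≤ m ∧ R τ m U) ∨ Cap R N τ U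

variable {R : List ℕ → ℕ → Set X → Prop}

lemma Cap.mono (hR : Capt R) {N : ℕ} : ∀ {τ : List ℕ} {U V : Set X}, Cap R N τ U → V ⊆ U →
    Cap R N τ V
  | [], _, _, h, _ => h
  | (_ :: _), _, _, h, hs => h.imp (fun h => ⟨h.1, hR.monoU h.2 hs⟩) (fun h => Cap.mono hR h hs)

lemma Cap.ndense (hR : Capt R) {N : ℕ} : ∀ {τ : List ℕ} {U : Set X}, Cap R N τ U →
    ¬ ((Set.univ : Set X) ⊆ closure U)
  | (_ :: _), _, h => h.elim (fun h => hR.ndense h.2) (fun h => Cap.ndense hR h)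

lemma shrink_finite (hR : Capt R) {J : Set (List ℕ)} (hJ : J.Finite) {ι : Type u} [Finite ι]
    {p : ι → Set X} (hp : Tup p) :
    ∃ q, Tup q ∧ Ref q p ∧ ∃ M, ∀ τ ∈ J, R τ M (⋃ i, q i) := by
  induction J, hJ using Set.Finite.induction_on with
  | empty => exact ⟨p, hp, fun _ => subset_rfl, 0, by simp⟩
  | @insert a s _ _ ih =>
    obtain ⟨q, hq, hqp, M, hM⟩ := ih
    obtain ⟨q', hq', hqq, m, hm⟩ := hR.shrink a ι q hq
    refine ⟨q', hq', hqq.trans hqp, max M m, ?_⟩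
    rintro τ (rfl | hτ)
    · exact hR.monom hm (le_max_right _ _)
    · exact hR.monom (hR.monoU (hM τ hτ) (iUnion_mono_ref hqq)) (le_max_left _ _)

lemma finite_bdd (n k : ℕ) : {τ : List ℕ | τ.length = n ∧ ∀ x ∈ τ, x < k}.Finite := by
  refine ((List.finite_length_eq (Fin k) n).image (List.map Fin.val)).subset ?_
  rintro τ ⟨h1, h2⟩
  refine ⟨τ.pmap (fun x hx => (⟨x, hx⟩ : Fin k)) h2, ?_, ?_⟩
  · simp [h1]
  · simp [List.map_pmap]

/-- The key claim in Hurewicz' argument. -/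
lemma claim (hR : Capt R) (N : ℕ) (n : ℕ) : ∀ (ι : Type u) [Finite ι] (p : ι → Set X), Tup p →
    ∃ q, Tup q ∧ Ref q p ∧ ∃ k, ∀ k' ≥ k, ∀ τ : List ℕ, τ.length = n →
      τ.Pairwise (· > ·) → (∀ x ∈ τ, x < k') → Cap R N (k' :: τ) (⋃ i, q i) := by
  induction n with
  | zero =>
    intro ι _ p hp
    obtain ⟨q, hq, hqp, m, hm⟩ := hR.shrink [] ι p hp
    refine ⟨q, hq, hqp, max N m, fun k' hk' τ hτ _ _ => ?_⟩
    rw [List.length_eq_zero_iff] at hτ
    subst hτ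
    exact Or.inl ⟨le_trans (le_max_left _ _) hk', hR.monom hm (le_trans (le_max_right _ _) hk')⟩
  | succ n ih =>
    intro ι _ p hp
    obtain ⟨q, hq, hqp, k, hk⟩ := ih ι p hp
    obtain ⟨q', hq', hqq, M, hM⟩ := shrink_finite hR (finite_bdd (n + 1) k) hq
    refine ⟨q', hq', hqq.trans hqp, max (max N M) k, fun k' hk' τ hτ hpw hlt => ?_⟩
    have hN : N ≤ k' := le_trans (le_trans (le_max_left _ _) (le_max_left _ _)) hk'
    have hMk : M ≤ k' := le_trans (le_trans (le_max_right _ _) (le_max_left _ _)) hk'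
    match τ, hτ, hpw, hlt with
    | j :: τ', hτ, hpw, hlt =>
      by_cases hj : k ≤ j
      · right
        have h1 : Cap R N (j :: τ') (⋃ i, q i) := by
          apply hk j hj τ' (by simpa using hτ) (List.pairwise_cons.1 hpw).2
          intro x hx
          exact (List.pairwise_cons.1 hpw).1 x hx
        exact h1.mono hR (iUnion_mono_ref hqq)
      · left
        refine ⟨hN, hR.monom (hM (j :: τ') ⟨hτ, ?_⟩) hMk⟩
        intro x hx
        rcases List.mem_cons.1 hx with rfl | hx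
        · omega
        · have := (List.pairwise_cons.1 hpw).1 x hx
          omega

/-- The families `𝒲_n` of Hurewicz' argument. -/
def WW (R : List ℕ → ℕ → Set X → Prop) (N n : ℕ) : Set (Set X) :=
  {U | IsOpen U ∧ ∃ k, ∀ k' ≥ k, ∀ τ : List ℕ, τ.length = n →
      τ.Pairwise (· > ·) → (∀ x ∈ τ, x < k') → Cap R N (k' :: τ) U}

lemma pairwise_range_reverse (n : ℕ) : ((List.range n).reverse).Pairwise (· > ·) := by
  rw [List.pairwise_reverse]
  exact List.pairwise_lt_range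

lemma WW_mem (hR : Capt R) (N n : ℕ) : WW R N n ∈ DOmega X := by
  refine mem_DOmega_of (fun U hU => hU.1) ?_ ?_
  · rintro U ⟨_, k, hk⟩
    have := hk (max k n) (le_max_left _ _) (List.range n).reverse (by simp)
      (pairwise_range_reverse n) (by
        intro x hx
        simp only [List.mem_reverse, List.mem_range] at hx
        exact lt_of_lt_of_le hx (le_max_right _ _))
    exact this.ndense hR
  · intro ι _ p hp
    obtain ⟨q, hq, hqp, k, hk⟩ := claim hR N n ι p hp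
    refine ⟨⋃ i, q i, ⟨isOpen_iUnion fun i => (hq i).1, k, hk⟩, fun i => ?_⟩
    obtain ⟨x, hx⟩ := (hq i).2
    exact ⟨x, Set.mem_iUnion.2 ⟨i, hx⟩, hqp i hx⟩

/-- The reversed list of the first `n` values. -/
def revl (m : ℕ → ℕ) (n : ℕ) : List ℕ := ((List.range n).map m).reverse

lemma revl_succ (m : ℕ → ℕ) (n : ℕ) : revl m (n + 1) = m n :: revl m n := by
  simp [revl, List.range_succ]

lemma revl_length (m : ℕ → ℕ) (n : ℕ) : (revl m n).length = n := by simp [revl]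

lemma mem_revl {m : ℕ → ℕ} {n x : ℕ} : x ∈ revl m n ↔ ∃ j < n, m j = x := by
  simp [revl]

lemma revl_pairwise {m : ℕ → ℕ} (hm : StrictMono m) (n : ℕ) :
    (revl m n).Pairwise (· > ·) := by
  rw [revl, List.pairwise_reverse, List.pairwise_map]
  exact List.pairwise_lt_range.imp fun h => hm h

lemma Cap.exists_index {N : ℕ} {m : ℕ → ℕ} {U : Set X} : ∀ n, Cap R N (revl m n) U →
    ∃ j < n, N ≤ m j ∧ R (revl m j) (m j) U
  | 0, h => by simp [revl, Cap] at h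
  | n + 1, h => by
    rw [revl_succ] at h
    rcases h with h | h
    · exact ⟨n, Nat.lt_succ_self n, h⟩
    · obtain ⟨j, hj, h⟩ := Cap.exists_index n h
      exact ⟨j, hj.trans (Nat.lt_succ_self n), h⟩

/-- The abstract form of Hurewicz' theorem. -/
theorem hurewicz (hR : Capt R) (hS : Sfin (DOmega X) (DOmega X)) :
    ∃ m : ℕ → ℕ, StrictMono m ∧ ∀ (N : ℕ) (ι : Type u) [Finite ι] (p : ι → Set X), Tup p →
      ∃ n ≥ N, ∃ q, Tup q ∧ Ref q p ∧ R (revl m n) (m n) (⋃ i, q i) := by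
  have hsel : ∀ N, ∃ 𝓕 : ℕ → Set (Set X),
      (∀ a, (𝓕 a).Finite ∧ 𝓕 a ⊆ WW R N (Nat.pair a N)) ∧ (⋃ a, 𝓕 a) ∈ DOmega X :=
    fun N => hS (fun a => WW R N (Nat.pair a N)) (fun a => WW_mem hR N _)
  choose 𝓕 h𝓕 h𝓕D using hsel
  -- bounds
  have hbd : ∀ n, ∃ k, ∀ U ∈ 𝓕 n.unpair.2 n.unpair.1, ∀ k' ≥ k, ∀ τ : List ℕ, τ.length = n →
      τ.Pairwise (· > ·) → (∀ x ∈ τ, x < k') → Cap R n.unpair.2 (k' :: τ) U := by
    intro n
    have hfin := (h𝓕 n.unpair.2 n.unpair.1).1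
    have hsub := (h𝓕 n.unpair.2 n.unpair.1).2
    rw [Nat.pair_unpair] at hsub
    choose! kk hkk using fun U (hU : U ∈ 𝓕 n.unpair.2 n.unpair.1) => (hsub hU).2
    obtain ⟨k, hk⟩ := (hfin.image kk).bddAbove
    exact ⟨k, fun U hU k' hk' => hkk U hU k' (le_trans (hk ⟨U, hU, rfl⟩) hk')⟩
  choose K hK using hbd
  -- the sequence
  let m : ℕ → ℕ := fun n => Nat.rec (K 0) (fun n r => max (K (n + 1)) (r + 1)) n
  have hm : StrictMono m := strictMono_nat_of_lt_succ fun n =>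
    lt_of_lt_of_le (Nat.lt_succ_self _) (le_max_right _ _)
  have hmK : ∀ n, K n ≤ m n := by
    intro n
    cases n with
    | zero => exact le_rfl
    | succ n => exact le_max_left _ _
  refine ⟨m, hm, ?_⟩
  intro N ι _ p hp
  obtain ⟨U, hU, hUm⟩ := meets_of_mem (h𝓕D (m N)) hp
  obtain ⟨a, ha⟩ := Set.mem_iUnion.1 hU
  set n := Nat.pair a (m N) with hn
  have h1 : n.unpair.1 = a := by simp [hn]
  have h2 : n.unpair.2 = m N := by simp [hn]
  have hcap : Cap R (m N) (m n :: revl m n) U := by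
    have := hK n U (by rw [h1, h2]; exact ha) (m n) (hmK n) (revl m n) (revl_length m n)
      (revl_pairwise hm n) (by
        intro x hx
        obtain ⟨j, hj, rfl⟩ := mem_revl.1 hx
        exact hm hj)
    rwa [h2] at this
  rw [← revl_succ] at hcap
  obtain ⟨j, _, hj, hRj⟩ := Cap.exists_index _ hcap
  have hopen : IsOpen U := (h𝓕D (m N)).1 U hU
  exact ⟨j, hm.le_iff_le.1 hj, _, tup_inter hp hopen hUm, ref_inter,
    hR.monoU hRj iUnion_inter_sub⟩

end Pool.Agent.SelGames
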